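import Pool.Agent.H94.FDF.Bridge
import Pool.Agent.H60.RF.Stmts

/-!
# Families of tubes with few directions in every ball: the last clauses
-/

set_option autoImplicit false

namespace Pool.Agent.H9.FDN

open MeasureTheory Pool.Agent.H94.FDF

theorem main (hD : Pool.RF.DIMStmt) (d : ℕ) (hd : 3 ≤ d) :
    (∀ A σ ε q₀ : ℝ, 0 ≤ σ → σ ≤ 1 - 3 / (d : ℝ) → 0 < ε → ε < 1 - σ →
      1 + 1 / ((d : ℝ) * (1 - σ)) < q₀ →
      ∃ θ P C : ℝ, 0 < θ ∧ 0 ≤ P ∧ 0 < C ∧ ∀ δ : ℝ, 0 < δ → δ < 1 →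
        ∀ (N : ℕ) (c e : Fin N → EuclideanSpace ℝ (Fin (d + 1))), Dirs δ e →
        (σ = 1 - 3 / (d : ℝ) ∨ Spread δ (A * (N : ℝ) ^ σ) e) →
        Off d θ (σ + ε) q₀ C δ c e ∧ Union d (1 - σ - ε) C δ c e ∧
        Dense d P (1 - σ - ε) C δ c e) ∧
    (∀ Ω K : Set (EuclideanSpace ℝ (Fin (d + 1))), Ω.Nonempty →
      (∀ e ∈ Ω, nm e = 1 ∧ HasSegment K e) → min (hdim Ω) 3 + 1 ≤ hdim K) ∧
    (∀ K : Set (EuclideanSpace ℝ (Fin (d + 1))), IsKakeya K →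
      4 ≤ hdim K ∧ (d = 3 → hdim K = 4) ∧ (d = 5 → ENNReal.ofReal (32 / 7) ≤ hdim K) ∧
        (d = 6 → 5 ≤ hdim K) ∧ (d = 7 → ENNReal.ofReal (60 / 11) ≤ hdim K)) ∧
    (d = 4 → ∃ c : ℝ, 0 < c ∧ ∀ K : Set (EuclideanSpace ℝ (Fin (d + 1))),
      IsKakeya K → ENNReal.ofReal (4 + c) ≤ hdim K) := by
  obtain ⟨h1, h2, h3, h4⟩ := Pool.Agent.H94.FDF.main d hd
  refine ⟨h1, h2, fun K hK => ⟨(h3 K hK).1, (h3 K hK).2.1, (h3 K hK).2.2.1, ?_, ?_⟩, h4⟩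
  · intro h
    subst h
    have h5 := hD.1 K hK
    have h6 : ENNReal.ofReal 5 = 5 := by norm_num
    rw [h6] at h5
    exact h5
  · intro h
    subst h
    exact hD.2 K hK

end Pool.Agent.H9.FDN
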