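import Pool.Agent.H13.RF.CLM
import Pool.Agent.H14.RF.AR7
import Pool.Agent.H14.RF.RMC
import Pool.Agent.H14.RF.RMT
import Pool.Agent.H17.RF.FUB
import Pool.Agent.H17.RF.SUB
import Pool.Agent.H22.RF.ENT
import Pool.Agent.H22.RF.LSA
import Pool.Agent.H38.RF.CHT
import Pool.Agent.H38.RF.CLC
import Pool.Agent.H52.RF.PRB
import Pool.Agent.H54.RF.GPB
import Pool.Agent.H55.RF.AR6
import Pool.Agent.H60.RF.CLB
import Pool.Agent.H60.RF.DIM
import Pool.Agent.H60.RF.EFR
import Pool.Agent.H9.RF.GDB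

/-!
# Random functionals: all rows together
-/

set_option autoImplicit false

namespace Pool.RF

theorem dim_all : DIMStmt :=
  dim ar6 ar7 (efr gpb (gdb prb fub) (rmc rmt) (clm (clc clb cht lsa) (sub lsa) ent) kpz)

end Pool.RF
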